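import Pool.Agent.Q221.CostReg.Main

set_option autoImplicit false

/-!
# Copyless cost register automata over `ℚ` are not closed under reversal

The function `f` is computed with two registers: reading `a₁` does `(x, y) := (x * y + 1, 0)`,
reading `a₀` does `y := y + 1`, all other letters do nothing; the output is `x`. Its reversal `g`
satisfies `g (a₁ a₀^m w) = m * g w + 1` if `w` begins with `a₁`.

In a copyless automaton each register flows into at most one register. Along words acting as an
idempotent `e` on pairs (state, register), every register evolves by its own affine map. Modulo a
prime power `p ^ k` (with `p` not dividing any denominator) a high power of such an affine map is the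
identity or constant, so there are words `V`, `v`, acting as `e`, with the same value on
`z V^n v V^n` and `z v V^n` modulo `p ^ k`. If `V` multiplies by a multiple of `p` then the values of
`g` on these words force `V` and `v` to have the same fixed point modulo `p ^ k`, for all `k`.

The definitions are in `Pool.Agent.Q221.CostReg.Def`.
-/

namespace Pool.Agent.Results.MP_32a6cf_lc.ReversalNotClosed

open Pool.Agent.Q221.CostReg

/-- For every finite alphabet with at least two letters there is a function recognisable by a
copyless cost register automaton over `ℚ` whose reversal is not. -/
theorem result (α : Type) [Fintype α] (hα : 2 ≤ Fintype.card α) :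
    ∃ f : List α → ℚ, Recognisable f ∧ ¬ Recognisable (fun w => f w.reverse) := by
  obtain ⟨a₀, a₁, hne⟩ := Fintype.exists_pair_of_one_lt_card (α := α) (by omega)
  exact ⟨f a₀ a₁, f_recognisable a₀ a₁, not_recognisable hne⟩

end Pool.Agent.Results.MP_32a6cf_lc.ReversalNotClosed
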